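import Pool.Agent.Lib.MP_4aeae0_co.HubD

set_option autoImplicit false

open scoped NNReal

namespace Pool.Agent.Results.MP_4aeae0_co.Full

/-- The total weight `w(X)` of a vertex set `X`. -/
noncomputable def weight {V : Type} [Fintype V] (w : V → ℝ≥0) (X : Set V) : ℝ≥0 :=
  ∑ v, X.indicator w v

/-- `S` is a balanced separator: every connected component `C` of `G - S` has
`w(C) ≤ w(G) / 2`. -/
def IsBalancedSeparator {V : Type} [Fintype V] (G : SimpleGraph V) (w : V → ℝ≥0) (S : Set V) :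
    Prop :=
  ∀ C : (G.induce Sᶜ).ConnectedComponent,
    weight w (Subtype.val '' C.supp) ≤ weight w Set.univ / 2

/-- `S` is `(k, r)`-coverable: some set `X` of at most `k` vertices has every vertex of `S` within
distance `r` in `G` of one of its vertices. -/
def Coverable {V : Type} (G : SimpleGraph V) (k : ℝ) (r : ℕ) (S : Set V) : Prop :=
  ∃ X : Finset V, (X.card : ℝ) ≤ k ∧ ∀ v ∈ S, ∃ x ∈ X, G.edist x v ≤ (r : ℕ∞)

/-- `H` is an induced minor of `G`. -/
def IsInducedMinor {W V : Type} (H : SimpleGraph W) (G : SimpleGraph V) : Prop :=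
  ∃ B : W → Set V, (∀ u v, u ≠ v → Disjoint (B u) (B v)) ∧ (∀ u, (G.induce (B u)).Connected) ∧
    ∀ u v, u ≠ v → (H.Adj u v ↔ ∃ x ∈ B u, ∃ y ∈ B v, G.Adj x y)

open Pool.Agent.Lib.MP_4aeae0_co

theorem conn_supp {V : Type} {G : SimpleGraph V} {S : Set V}
    (C : (G.induce Sᶜ).ConnectedComponent) : ∃ x, Conn G (Subtype.val '' C.supp) x := by
  induction C using SimpleGraph.ConnectedComponent.ind with
  | h x =>
  refine ⟨x.1, ⟨x, rfl, rfl⟩, ?_⟩
  rintro _ ⟨v, hv, rfl⟩
  have hr : (G.induce Sᶜ).Reachable x v := (SimpleGraph.ConnectedComponent.exact hv).symm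
  obtain ⟨p⟩ := hr
  have key : ∀ (s t : (Sᶜ : Set V)) (_ : (G.induce Sᶜ).Walk s t),
      s ∈ ((G.induce Sᶜ).connectedComponentMk x).supp →
      Relation.ReflTransGen
        (fun a b => a ∈ Subtype.val '' ((G.induce Sᶜ).connectedComponentMk x).supp ∧
          b ∈ Subtype.val '' ((G.induce Sᶜ).connectedComponentMk x).supp ∧ G.Adj a b) s.1 t.1 := by
    intro s t p
    induction p with
    | nil => exact fun _ => Relation.ReflTransGen.refl
    | @cons a b c hadj _ ih =>
      intro ha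
      have hb : b ∈ ((G.induce Sᶜ).connectedComponentMk x).supp :=
        (SimpleGraph.ConnectedComponent.sound hadj.reachable).symm.trans ha
      exact Relation.ReflTransGen.head ⟨⟨a, ha, rfl⟩, ⟨b, hb, rfl⟩, hadj⟩ (ih hb)
  exact key _ _ p rfl

theorem big_of_lt {V : Type} [Fintype V] {w : V → ℝ≥0} {T : Set V}
    (h : weight w Set.univ / 2 < weight w T) : Big (fun v => (w v : ℝ)) T := by
  classical
  have h' : ((weight w Set.univ / 2 : ℝ≥0) : ℝ) < (weight w T : ℝ≥0) := by exact_mod_cast h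
  unfold weight at h'
  unfold Big
  rw [Finset.sum_filter]
  push_cast at h'
  simp only [Set.indicator_univ] at h'
  refine lt_of_lt_of_eq h' (Finset.sum_congr rfl fun v _ => ?_)
  by_cases hv : v ∈ T <;> simp [hv]

/-- For every graph `H` there is `c` such that every `n`-vertex weighted `H`-induced-minor-free
graph has a balanced separator that is `(c √n, |V(H)| + 3)`-coverable. -/
theorem result :
    ∀ (W : Type) [Fintype W] (H : SimpleGraph W), ∃ c : ℕ,
      ∀ (V : Type) [Fintype V] (G : SimpleGraph V) (w : V → ℝ≥0), ¬ IsInducedMinor H G →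
        ∃ S : Set V, IsBalancedSeparator G w S ∧
          Coverable G (c * Real.sqrt (Fintype.card V)) (Fintype.card W + 3) S := by
  classical
  intro W _ H
  set h := Fintype.card W with hh
  set k := 2 * budget (h * h * (4 * h + 14) + 2 * (h * h)) (2 * (h * h)) h + 2 with hk
  refine ⟨2 * k, fun V _ G w hno => ?_⟩
  have hw : ∀ v, (0 : ℝ) ≤ (fun v => (w v : ℝ)) v := fun v => (w v).2
  by_contra hcon
  rcases isEmpty_or_nonempty V with hV | hV
  · exact hcon ⟨∅, fun C => by simp [weight], ∅, by simp, by simp⟩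
  set s := Nat.sqrt (Fintype.card V) + 1 with hs
  have hn : Fintype.card V ≤ s * s := (Nat.lt_succ_sqrt _).le
  have hs2 : (s : ℝ) ≤ 2 * Real.sqrt (Fintype.card V) := by
    have h1 : ((Nat.sqrt (Fintype.card V) : ℕ) : ℝ) ≤ Real.sqrt (Fintype.card V) :=
      Real.nat_sqrt_le_real_sqrt
    have h2 : (1 : ℝ) ≤ Real.sqrt (Fintype.card V) := by
      rw [Real.one_le_sqrt]
      exact_mod_cast Fintype.card_pos
    rw [hs]
    push_cast
    linarith
  have hns : NoSep G (fun v => (w v : ℝ)) (k * s) (h + 3) := by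
    rintro S ⟨C, hC, hS⟩
    by_contra hT
    refine hcon ⟨S, fun D => ?_, C, ?_, hS⟩
    · by_contra hlt
      refine hT ⟨Subtype.val '' D.supp, Set.disjoint_left.2 ?_, conn_supp D,
        big_of_lt (not_le.1 hlt)⟩
      rintro _ ⟨v, -, rfl⟩ hvS
      exact v.2 hvS
    · have h1 : (C.card : ℝ) ≤ (k : ℝ) * s := by exact_mod_cast hC
      have h2 : (k : ℝ) * s ≤ (k : ℝ) * (2 * Real.sqrt (Fintype.card V)) :=
        mul_le_mul_of_nonneg_left hs2 (Nat.cast_nonneg _)
      push_cast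
      linarith
  let e : W → ℕ := fun a => (Fintype.equivFin W a : ℕ)
  have he : ∀ a, e a < h := fun a => (Fintype.equivFin W a).2
  have hinj : Function.Injective e := fun a b hab => (Fintype.equivFin W).injective (Fin.ext hab)
  let F : Finset (ℕ × ℕ) :=
    (Finset.univ.filter fun q : W × W => H.Adj q.1 q.2 ∧ e q.2 < e q.1).image
      fun q => (e q.1, e q.2)
  have hF : ∀ q, q ∈ F ↔ ∃ a b, H.Adj a b ∧ e b < e a ∧ (e a, e b) = q := by
    intro q
    simp only [F, Finset.mem_image, Finset.mem_filter, Finset.mem_univ, true_and, Prod.exists,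
      and_assoc]
  obtain ⟨B, h1, h2, h3, h4⟩ := exists_model hw (Nat.le_add_left 1 _)
    hn hns F fun q hq => by
      obtain ⟨a, b, -, hab, rfl⟩ := (hF q).1 hq
      exact ⟨hab, he a⟩
  refine hno ⟨fun a => B (e a), fun a b hab => h2 _ (he a) _ (he b) (hinj.ne hab),
    fun a => h1 _ (he a), fun a b hab => ⟨fun hadj => ?_, ?_⟩⟩
  · rcases lt_or_gt_of_ne (hinj.ne hab) with hlt | hlt
    · obtain ⟨x, hx, y, hy, hxy⟩ := h4 _ ((hF _).2 ⟨b, a, hadj.symm, hlt, rfl⟩)
      exact ⟨y, hy, x, hx, hxy.symm⟩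
    · exact h4 _ ((hF _).2 ⟨a, b, hadj, hlt, rfl⟩)
  · rintro ⟨x, hx, y, hy, hxy⟩
    by_contra hadj
    refine h3 _ (he a) _ (he b) (hinj.ne hab) (fun hq => ?_) (fun hq => ?_) x hx y hy (Or.inr hxy)
    · obtain ⟨a', b', h5, -, h6⟩ := (hF _).1 hq
      obtain ⟨h7, h8⟩ := Prod.mk.inj h6
      exact hadj (hinj h7 ▸ hinj h8 ▸ h5)
    · obtain ⟨a', b', h5, -, h6⟩ := (hF _).1 hq
      obtain ⟨h7, h8⟩ := Prod.mk.inj h6
      exact hadj (hinj h7 ▸ hinj h8 ▸ h5.symm)

end Pool.Agent.Results.MP_4aeae0_co.Full
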