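import Pool.Agent.Lib.MP_4aeae0_co.Main

open Pool.Agent.Lib.MP_4aeae0_co

/-- Every weighted `H`-induced-minor-free graph on `n` vertices has a balanced separator covered
by at most `10 (|H| + 1) ^ 2 √(n log (n + 1))` balls of radius one. -/
theorem Pool.Agent.Results.MP_4aeae0_co.SqrtNLogN.result :
    ∀ (W : Type) [Fintype W] (H : SimpleGraph W)
      (V : Type) [Fintype V] (G : SimpleGraph V) (w : V → ℝ),
      (∀ v, 0 ≤ w v) →
      (¬ ∃ B : W → Set V,
          (∀ a, (G.induce (B a)).Connected) ∧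
          (∀ a b, a ≠ b → Disjoint (B a) (B b)) ∧
          (∀ a b, a ≠ b → (H.Adj a b ↔ ∃ x ∈ B a, ∃ y ∈ B b, G.Adj x y))) →
      ∃ S : Finset V, ∃ C : Finset V,
        ((C.card : ℝ) ≤ 10 * ((Fintype.card W : ℝ) + 1) ^ 2 *
          Real.sqrt ((Fintype.card V : ℝ) * Real.log ((Fintype.card V : ℝ) + 1))) ∧
        (∀ x ∈ S, ∃ v ∈ C, G.edist v x ≤ 1) ∧
        (∀ T : Finset V, Disjoint T S → (G.induce (T : Set V)).Connected →
          ∑ v ∈ T, w v ≤ (∑ v, w v) / 2) := by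
  intro W _ H V _ G w hw hfree
  rcases Nat.eq_zero_or_pos (Fintype.card V) with h0 | hn
  · have : IsEmpty V := Fintype.card_eq_zero_iff.1 h0
    refine ⟨∅, ∅, by simp, by simp, fun T _ _ => ?_⟩
    simp [Finset.eq_empty_of_isEmpty T]
  set n := Fintype.card V with hndef
  set h := Fintype.card W with hhdef
  set m := Nat.log 2 n + 1 with hmdef
  have hm : n < 2 ^ m := Nat.lt_pow_succ_log_self one_lt_two n
  have hmn : m ≤ n := Nat.log_lt_self 2 hn.ne'
  have hm1 : (1 : ℝ) ≤ m := by exact_mod_cast Nat.le_add_left 1 _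
  have hn1 : (1 : ℝ) ≤ n := by exact_mod_cast hn
  have hmn' : (m : ℝ) ≤ n := by exact_mod_cast hmn
  set t := √((n : ℝ) / m) with ht
  have ht1 : 1 ≤ t := Real.one_le_sqrt.2 ((one_le_div (by linarith)).2 hmn')
  have ht2 : t * t * m = n := by
    rw [Real.mul_self_sqrt (by positivity)]
    field_simp
  set l := ⌈t⌉₊ with hl
  have hl1 : t ≤ l := Nat.le_ceil t
  have hl2 : (l : ℝ) ≤ 2 * t := by
    have := Nat.ceil_lt_add_one (show 0 ≤ t by linarith)
    linarith
  have hl0 : 1 ≤ l := by exact_mod_cast ht1.trans hl1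
  have hh : (0 : ℝ) ≤ h := Nat.cast_nonneg h
  -- the logarithm
  have hlog : (m : ℝ) ≤ 4 * Real.log ((n : ℝ) + 1) := by
    have h1 : (2 : ℝ) ^ Nat.log 2 n ≤ n := by exact_mod_cast Nat.pow_log_le_self 2 hn.ne'
    have h2 : (Nat.log 2 n : ℝ) * Real.log 2 ≤ Real.log ((n : ℝ) + 1) := by
      rw [← Real.log_pow]
      exact Real.log_le_log (by positivity) (by linarith)
    have h3 : Real.log 2 ≤ Real.log ((n : ℝ) + 1) := Real.log_le_log two_pos (by linarith)
    have h4 := Real.log_two_gt_d9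
    have h5 : (0 : ℝ) ≤ Nat.log 2 n := Nat.cast_nonneg _
    rw [hmdef]
    push_cast
    nlinarith
  have hta : t * m ≤ 2 * √((n : ℝ) * Real.log ((n : ℝ) + 1)) := by
    have h1 : (t * m / 2) ^ 2 ≤ (n : ℝ) * Real.log ((n : ℝ) + 1) := by nlinarith
    have := Real.le_sqrt_of_sq_le h1
    linarith
  obtain ⟨S, C, hC, hS, hT⟩ := main (G := G) hw (h := h) (l := l) (m := m)
    (K := ⌊5 * ((h : ℝ) + 1) ^ 2 * (t * m)⌋₊) hl0 hm (fun j hj => Nat.le_floor (by
      have hj' : (l : ℝ) * j ≤ (2 * h + 1) * n := by exact_mod_cast hj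
      have hj0 : (0 : ℝ) ≤ j := Nat.cast_nonneg j
      have h1 : (j : ℝ) ≤ (2 * h + 1) * (t * m) := by
        have h2 : t * j ≤ t * ((2 * h + 1) * (t * m)) := by nlinarith
        exact le_of_mul_le_mul_left h2 (by linarith)
      have h2 : (l : ℝ) * m ≤ 2 * (t * m) := by nlinarith
      have h3 : (l : ℝ) ≤ 2 * (t * m) := by nlinarith
      have h4 : 1 ≤ t * m := by nlinarith
      have h5 : (h : ℝ) * (l * m + l * m + 1) ≤ h * (5 * (t * m)) :=
        mul_le_mul_of_nonneg_left (by linarith) hh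
      have h6 : (h : ℝ) * (l + h * (l * m + l * m + 1)) ≤ h * (2 * (t * m) + h * (5 * (t * m))) :=
        mul_le_mul_of_nonneg_left (by linarith) hh
      have h7 : 0 ≤ (h : ℝ) * (t * m) := by positivity
      push_cast
      nlinarith))
    (fun X y M => lt_of_not_ge fun hX => hfree (M.induced_minor H hX))
  refine ⟨S, C, ?_, fun x hx => ?_, hT⟩
  · have h1 : (C.card : ℝ) ≤ 5 * ((h : ℝ) + 1) ^ 2 * (t * m) :=
      (Nat.cast_le.2 hC).trans (Nat.floor_le (by positivity))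
    have h2 := mul_le_mul_of_nonneg_left hta (show 0 ≤ 5 * ((h : ℝ) + 1) ^ 2 by positivity)
    linarith
  · obtain ⟨v, hv, hn⟩ := hS x hx
    exact ⟨v, hv, hn.edist_le⟩
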